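import Pool.Agent.Helper36_X1.Stmts2

/-!
# Squad X1, module ACA: the calculus of the operators
-/

open scoped BigOperators

noncomputable section

namespace Pool.Agent.PP.X1.H69

open Pool.Agent.Helper51_AWC Pool.Agent.Helper79_WRA Pool.Agent.PP Pool.Agent.PP.X1

section sums

variable {F : Type} [Field F] {k : ℕ}

theorem finsum_mulVec {ι : Type} [Finite ι] (f : ι → Matrix (Fin k) (Fin k) F) (v : Fin k → F) :
    (∑ᶠ i, f i).mulVec v = ∑ᶠ i, (f i).mulVec v :=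
  AddMonoidHom.map_finsum (Matrix.mulVec.addMonoidHomLeft v) (Set.toFinite _)

theorem mulVec_finsum {ι : Type} [Finite ι] (A : Matrix (Fin k) (Fin k) F)
    (f : ι → (Fin k → F)) : A.mulVec (∑ᶠ i, f i) = ∑ᶠ i, A.mulVec (f i) :=
  AddMonoidHom.map_finsum (Matrix.mulVecLin A).toAddMonoidHom (Set.toFinite _)

end sums

section basic

variable {ℓ : ℕ} {G : Type} [Group G] (R : RGD ℓ G)

theorem T_le_PJ (J : Finset (Fin R.r)) : R.T ≤ R.PJ J := le_sup_left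

theorem U_le_PJ (J : Finset (Fin R.r)) : R.U ≤ R.PJ J :=
  (R.gp_mono Set.subset_union_left).trans le_sup_right

theorem B_le_PJ (J : Finset (Fin R.r)) : R.B ≤ R.PJ J := sup_le (T_le_PJ R J) (U_le_PJ R J)

theorem Uw_le_U (w : List (Fin R.r)) : R.Uw w ≤ R.U := R.gp_mono fun _ hb => hb.1

theorem ray_eq (i : Fin R.r) : {b | b ∈ R.pos ∧ R.sw [i].reverse b ∈ R.neg} = R.ray i := by
  ext b
  constructor
  · rintro ⟨h1, h2⟩
    by_contra h3
    exact R.not_pos_neg (R.s_pos h1 h3) h2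
  · intro h
    refine ⟨R.ray_pos h, ?_⟩
    show R.s i b ∈ R.neg
    rw [R.s_ray h]
    exact R.neg_of_ray h

theorem a_ray (i : Fin R.r) : R.a i ∈ R.ray i := ⟨R.mem i, 1, one_pos, (one_smul _ _).symm⟩

theorem gp_ray (i : Fin R.r) : R.gp (R.ray i) = R.X (R.a i) := by
  apply le_antisymm
  · exact R.gp_le fun b hb => R.X_ray hb
  · exact R.X_le_gp (a_ray R i)

theorem Uw_single (i : Fin R.r) : R.Uw [i] = R.X (R.a i) := by
  rw [RGD.Uw, ray_eq, gp_ray]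

theorem Uw_nil : R.Uw [] = ⊥ := by
  have h : {b | b ∈ R.pos ∧ R.sw ([] : List (Fin R.r)).reverse b ∈ R.neg} = ∅ := by
    ext b
    simp only [List.reverse_nil, RGD.sw_nil, Set.mem_ofPred_eq, Set.mem_empty_iff_false, iff_false]
    rintro ⟨h1, h2⟩
    exact R.not_pos_neg h1 h2
  rw [RGD.Uw, h, R.gp_empty]

theorem sw_reverse_cons (i : Fin R.r) (w : List (Fin R.r)) (v : R.E) :
    R.sw (i :: w).reverse v = R.sw w.reverse (R.s i v) := by
  rw [List.reverse_cons, R.sw_append]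
  rfl

theorem Uw_cc (i : Fin R.r) (w : List (Fin R.r)) : R.Uw (i :: i :: w) = R.Uw w := by
  unfold RGD.Uw
  congr 1
  ext b
  simp only [Set.mem_ofPred_eq]
  rw [sw_reverse_cons, sw_reverse_cons, R.s_s]

theorem neg_mem_iff {b : R.E} (hb : b ∈ R.neg) (h : -b ∈ R.Φ) : -b ∈ R.pos := ⟨h, hb.2⟩

theorem sw_rev_a_mem (w : List (Fin R.r)) (i : Fin R.r) : R.sw w (-R.a i) ∈ R.Φ :=
  R.sw_mem (R.neg_a_mem i)

theorem pos_of_neg_cons {w : List (Fin R.r)} {i : Fin R.r}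
    (h : R.sw w.reverse (R.a i) ∈ R.neg) : R.sw (i :: w).reverse (R.a i) ∈ R.pos := by
  rw [sw_reverse_cons, R.s_self, R.sw_neg]
  refine ⟨?_, h.2⟩
  rw [← R.sw_neg]
  exact sw_rev_a_mem R _ i

theorem nw_single (i : Fin R.r) : R.nw [i] = R.n i := by
  rw [R.nw_cons, R.nw_nil, mul_one]

end basic

section main

variable {ℓ : ℕ} {G : Type} [Group G] [Finite G] (R : RGD ℓ G) {F : Type} [Field F]
  (J : Finset (Fin R.r)) {k : ℕ} (ρ : R.PJ J →* Matrix (Fin k) (Fin k) F)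

theorem Aw_mulVec (w : List (Fin R.r)) (v : Fin k → F) :
    (Aw R ρ w).mulVec v = ∑ᶠ x : R.Uw w, (ro ρ ((x : G) * R.nw w)).mulVec v :=
  finsum_mulVec _ v

theorem Ai_mulVec (i : Fin R.r) (v : Fin k → F) :
    (Ai R ρ i).mulVec v = ∑ᶠ x : R.X (R.a i), (ro ρ ((x : G) * R.n i)).mulVec v :=
  finsum_mulVec _ v

/-- a finite sum over a subgroup, in terms of a bijection given by a map on the group -/
theorem finsum_subgroup {A : Type} [AddCommMonoid A] (H H' : Subgroup G) (e : G → G)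
    (he : ∀ x ∈ H, e x ∈ H') (hi : ∀ x ∈ H, ∀ y ∈ H, e x = e y → x = y)
    (hs : ∀ y ∈ H', ∃ x ∈ H, e x = y) (f g : G → A) (hfg : ∀ x ∈ H, f x = g (e x)) :
    ∑ᶠ x : H, f x = ∑ᶠ x : H', g x := by
  refine finsum_eq_of_bijective (fun x : H => (⟨e x, he x x.2⟩ : H')) ⟨?_, ?_⟩
    (fun x => hfg x x.2)
  · intro x y hxy
    exact Subtype.ext (hi x x.2 y y.2 (congrArg Subtype.val hxy))
  · rintro ⟨y, hy⟩
    obtain ⟨x, hx, e1⟩ := hs y hy
    exact ⟨⟨x, hx⟩, Subtype.ext e1⟩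

theorem finsum_subgroup' {A : Type} [AddCommMonoid A] (H : Subgroup G) (e : G → G)
    (he : ∀ x ∈ H, e x ∈ H) (hi : ∀ x ∈ H, ∀ y ∈ H, e x = e y → x = y)
    (f g : G → A) (hfg : ∀ x ∈ H, f x = g (e x)) :
    ∑ᶠ x : H, f x = ∑ᶠ x : H, g x := by
  refine finsum_subgroup H H e he hi ?_ f g hfg
  have h1 : Function.Injective (fun x : H => (⟨e x, he x x.2⟩ : H)) := fun x y hxy =>
    Subtype.ext (hi x x.2 y y.2 (congrArg Subtype.val hxy))
  have h2 := Finite.surjective_of_injective h1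
  intro y hy
  obtain ⟨x, hx⟩ := h2 ⟨y, hy⟩
  exact ⟨x, x.2, congrArg Subtype.val hx⟩

variable {R J}

theorem nw_mem (hbru : BruhStmt) {w : List (Fin R.r)} (hw : ∀ j ∈ w, j ∈ J) :
    R.nw w ∈ R.PJ J := (hbru ℓ G R).1 J w hw

/-- `A_w v` is fixed by `U` -/
theorem Aw_fx (hfac : FacStmt) (hbru : BruhStmt) {w : List (Fin R.r)} (hw : ∀ j ∈ w, j ∈ J)
    {v : Fin k → F} (hv : v ∈ fx R.U ρ) : (Aw R ρ w).mulVec v ∈ fx R.U ρ := by
  obtain ⟨-, f2, f3, f4, -⟩ := hfac ℓ G R w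
  have hn := nw_mem hbru hw
  intro u hu
  rw [Aw_mulVec, mulVec_finsum]
  choose! x' hx' y' hy' hxy using f3
  have key : ∀ x ∈ R.Uw w, u * x = x' (u * x) * y' (u * x) := fun x hx =>
    hxy _ (R.U.mul_mem hu (Uw_le_U R w hx))
  refine finsum_subgroup' (R.Uw w) (fun x => x' (u * x)) (fun x hx => ?_)
    (fun x hx y hy e => ?_)
    (fun x => (ro ρ u).mulVec ((ro ρ (x * R.nw w)).mulVec v))
    (fun x => (ro ρ (x * R.nw w)).mulVec v) (fun x hx => ?_)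
  · exact hx' _ (R.U.mul_mem hu (Uw_le_U R w hx))
  · have k1 := key x hx
    have k2 := key y hy
    have h1 : x⁻¹ * y = (y' (u * x))⁻¹ * y' (u * y) := by
      have e1 : x' (u * x) = u * x * (y' (u * x))⁻¹ := by
        rw [eq_mul_inv_iff_mul_eq]; exact k1.symm
      have e2 : x' (u * y) = u * y * (y' (u * y))⁻¹ := by
        rw [eq_mul_inv_iff_mul_eq]; exact k2.symm
      rw [e1, e2, mul_assoc, mul_assoc] at e
      have e3 := mul_left_cancel e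
      have e4 : x⁻¹ * y = x⁻¹ * (y * (y' (u * y))⁻¹) * y' (u * y) := by group
      rw [e4, ← e3]
      group
    have h2 : x⁻¹ * y ∈ R.gp {b | b ∈ R.pos ∧ R.sw w.reverse b ∈ R.neg} ⊓
        R.gp {b | b ∈ R.pos ∧ R.sw w.reverse b ∈ R.pos} := by
      refine ⟨(R.Uw w).mul_mem ((R.Uw w).inv_mem hx) hy, ?_⟩
      rw [h1]
      exact Subgroup.mul_mem _ (Subgroup.inv_mem _ (hy' _ (R.U.mul_mem hu (Uw_le_U R w hx))))
        (hy' _ (R.U.mul_mem hu (Uw_le_U R w hy)))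
    rw [f4, Subgroup.mem_bot] at h2
    exact inv_mul_eq_one.mp h2
  · have hux := R.U.mul_mem hu (Uw_le_U R w hx)
    obtain ⟨h3, h4⟩ := (f2 (y' (u * x))).2 (hy' _ hux)
    have hxP := U_le_PJ R J (Uw_le_U R w hx)
    have hx'P := U_le_PJ R J (Uw_le_U R w (hx' _ hux))
    rw [Matrix.mulVec_mulVec, ← ro_mul ρ (U_le_PJ R J hu) ((R.PJ J).mul_mem hxP hn)]
    have e1 : u * (x * R.nw w) = (x' (u * x) * R.nw w) *
        ((R.nw w)⁻¹ * y' (u * x) * R.nw w) := by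
      have e2 : (x' (u * x) * R.nw w) * ((R.nw w)⁻¹ * y' (u * x) * R.nw w) =
        (x' (u * x) * y' (u * x)) * R.nw w := by group
      rw [e2, ← key x hx, mul_assoc]
    rw [e1, ro_mul ρ ((R.PJ J).mul_mem hx'P hn) (U_le_PJ R J h4), ← Matrix.mulVec_mulVec,
      hv _ h4]

theorem Aw_cons (hfac : FacStmt) (hbru : BruhStmt) {w : List (Fin R.r)} (hw : ∀ j ∈ w, j ∈ J)
    {i : Fin R.r} (hi : i ∈ J) (h : R.sw w.reverse (R.a i) ∈ R.pos) (v : Fin k → F) :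
    (Aw R ρ (i :: w)).mulVec v = (Ai R ρ i).mulVec ((Aw R ρ w).mulVec v) := by
  classical
  obtain ⟨g1, g2, g3⟩ := (hfac ℓ G R w).2.2.2.2 i h
  have hn := nw_mem hbru hw
  have hni : R.n i ∈ R.PJ J := by
    rw [← nw_single]
    exact nw_mem hbru (by simpa using hi)
  have : Fintype (R.X (R.a i)) := Fintype.ofFinite _
  have : Fintype (R.Uw w) := Fintype.ofFinite _
  have : Fintype (R.Uw (i :: w)) := Fintype.ofFinite _
  rw [Aw_mulVec, Ai_mulVec, Aw_mulVec, finsum_eq_sum_of_fintype, finsum_eq_sum_of_fintype]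
  have e1 : ∀ x : R.X (R.a i), (ro ρ ((x : G) * R.n i)).mulVec
      (∑ᶠ y : R.Uw w, (ro ρ ((y : G) * R.nw w)).mulVec v) =
      ∑ y : R.Uw w, (ro ρ ((x : G) * R.n i * (y * R.nw w))).mulVec v := by
    intro x
    rw [mulVec_finsum, finsum_eq_sum_of_fintype]
    refine Finset.sum_congr rfl fun y _ => ?_
    rw [Matrix.mulVec_mulVec, ← ro_mul ρ
      ((R.PJ J).mul_mem (U_le_PJ R J (R.X_le_U (R.a_pos i) x.2)) hni)
      ((R.PJ J).mul_mem (U_le_PJ R J (Uw_le_U R w y.2)) hn)]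
  simp only [e1]
  rw [← Fintype.sum_prod_type (f := fun p : R.X (R.a i) × R.Uw w =>
    (ro ρ ((p.1 : G) * R.n i * (p.2 * R.nw w))).mulVec v)]
  symm
  refine Fintype.sum_bijective (fun p : R.X (R.a i) × R.Uw w =>
    (⟨(p.1 : G) * (R.n i * p.2 * (R.n i)⁻¹),
      (R.Uw (i :: w)).mul_mem (g2 p.1.2) (g1 _ p.2.2)⟩ : R.Uw (i :: w))) ⟨?_, ?_⟩ _ _ ?_
  · rintro ⟨⟨y, hy⟩, ⟨z, hz⟩⟩ ⟨⟨y', hy'⟩, ⟨z', hz'⟩⟩ h1
    have h2 : y * (R.n i * z * (R.n i)⁻¹) = y' * (R.n i * z' * (R.n i)⁻¹) :=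
      congrArg Subtype.val h1
    obtain ⟨y0, hy0, z0, hz0, -, hu⟩ := g3 _ ((R.Uw (i :: w)).mul_mem (g2 hy) (g1 _ hz))
    obtain ⟨a1, a2⟩ := hu y hy z hz rfl
    obtain ⟨a3, a4⟩ := hu y' hy' z' hz' h2
    exact Prod.ext (Subtype.ext (a1.trans a3.symm)) (Subtype.ext (a2.trans a4.symm))
  · rintro ⟨x, hx⟩
    obtain ⟨y0, hy0, z0, hz0, e, -⟩ := g3 x hx
    exact ⟨(⟨y0, hy0⟩, ⟨z0, hz0⟩), Subtype.ext e.symm⟩
  · rintro ⟨⟨y, hy⟩, ⟨z, hz⟩⟩
    show (ro ρ (y * R.n i * (z * R.nw w))).mulVec v =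
      (ro ρ (y * (R.n i * z * (R.n i)⁻¹) * R.nw (i :: w))).mulVec v
    congr 2
    rw [R.nw_cons]
    group

theorem Aw_T (hbru : BruhStmt) {w : List (Fin R.r)} (hw : ∀ j ∈ w, j ∈ J) {t : G} (ht : t ∈ R.T)
    (v : Fin k → F) : (Aw R ρ w).mulVec ((ro ρ t).mulVec v) =
      (ro ρ (R.nw w * t * (R.nw w)⁻¹)).mulVec ((Aw R ρ w).mulVec v) := by
  have hn := nw_mem hbru hw
  have ht' : R.nw w * t * (R.nw w)⁻¹ ∈ R.T := R.T_nw.2 ht
  obtain ⟨t', h'⟩ : ∃ t', t' = R.nw w * t * (R.nw w)⁻¹ := ⟨_, rfl⟩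
  rw [← h'] at ht' ⊢
  rw [Aw_mulVec, Aw_mulVec, mulVec_finsum]
  symm
  refine finsum_subgroup' (R.Uw w) (fun x => t' * x * t'⁻¹) (fun x hx => ?_)
    (fun x hx y hy e => ?_)
    (fun x => (ro ρ t').mulVec ((ro ρ (x * R.nw w)).mulVec v))
    (fun x => (ro ρ (x * R.nw w)).mulVec ((ro ρ t).mulVec v)) (fun x hx => ?_)
  · exact R.T_gp (fun b hb => hb.1.1) ht' hx
  · exact mul_left_cancel (mul_right_cancel e)
  · have hxP := U_le_PJ R J (Uw_le_U R w hx)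
    have hx' : t' * x * t'⁻¹ ∈ R.Uw w := R.T_gp (fun b hb => hb.1.1) ht' hx
    rw [Matrix.mulVec_mulVec, Matrix.mulVec_mulVec,
      ← ro_mul ρ (T_le_PJ R J ht') ((R.PJ J).mul_mem hxP hn),
      ← ro_mul ρ ((R.PJ J).mul_mem (U_le_PJ R J (Uw_le_U R w hx')) hn) (T_le_PJ R J ht)]
    congr 2
    rw [h']
    group

theorem Ai_eq (i : Fin R.r) : Ai R ρ i = Aw R ρ [i] := by
  unfold Ai Aw
  rw [Uw_single, nw_single]

theorem Aw_nil (v : Fin k → F) : (Aw R ρ []).mulVec v = v := by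
  have h : Aw R ρ [] = 1 := by
    unfold Aw
    rw [Uw_nil]
    have : ∀ x : (⊥ : Subgroup G), ro ρ ((x : G) * R.nw []) = 1 := by
      rintro ⟨x, hx⟩
      rw [Subgroup.mem_bot] at hx
      show ro ρ (x * R.nw []) = 1
      rw [hx, R.nw_nil, mul_one, ro_one]
    simp only [this]
    rw [finsum_eq_sum_of_fintype]
    simp
  rw [h, Matrix.one_mulVec]

theorem Aw_cc (hbru : BruhStmt) {w : List (Fin R.r)} (hw : ∀ j ∈ w, j ∈ J) {i : Fin R.r}
    (hi : i ∈ J) (v : Fin k → F) : (Aw R ρ (i :: i :: w)).mulVec v =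
      (Aw R ρ w).mulVec ((ro ρ ((R.nw w)⁻¹ * (R.n i * R.n i) * R.nw w)).mulVec v) := by
  have hn := nw_mem hbru hw
  have hni : R.n i ∈ R.PJ J := by
    rw [← nw_single]
    exact nw_mem hbru (by simpa using hi)
  rw [Aw_mulVec, Aw_mulVec]
  refine finsum_subgroup (R.Uw (i :: i :: w)) (R.Uw w) id (fun x hx => ?_)
    (fun x _ y _ e => e) (fun y hy => ⟨y, ?_, rfl⟩)
    (fun x => (ro ρ (x * R.nw (i :: i :: w))).mulVec v)
    (fun x => (ro ρ (x * R.nw w)).mulVec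
      ((ro ρ ((R.nw w)⁻¹ * (R.n i * R.n i) * R.nw w)).mulVec v)) (fun x hx => ?_)
  · rw [Uw_cc] at hx
    exact hx
  · rw [Uw_cc]
    exact hy
  · show (ro ρ (x * R.nw (i :: i :: w))).mulVec v = (ro ρ (x * R.nw w)).mulVec
      ((ro ρ ((R.nw w)⁻¹ * (R.n i * R.n i) * R.nw w)).mulVec v)
    rw [Matrix.mulVec_mulVec, ← ro_mul ρ]
    · congr 2
      rw [R.nw_cons, R.nw_cons]
      group
    · exact (R.PJ J).mul_mem (U_le_PJ R J (Uw_le_U R _ hx)) hn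
    · exact (R.PJ J).mul_mem ((R.PJ J).mul_mem ((R.PJ J).inv_mem hn)
        ((R.PJ J).mul_mem hni hni)) hn

end main

theorem aca (hfac : FacStmt) (hbru : BruhStmt) : AcaStmt := by
  intro ℓ _ F _ _ G _ _ R J k ρ
  have hsing : ∀ i ∈ J, ∀ j ∈ [i], j ∈ J := by
    intro i hi j hj
    rw [List.mem_singleton] at hj
    rw [hj]; exact hi
  refine ⟨?_, ?_, ?_, ?_, ?_, fun v => Aw_nil ρ v⟩
  · intro w hw v hv
    refine ⟨Aw_fx ρ hfac hbru hw hv, fun i hi => ⟨fun h => Aw_cons ρ hfac hbru hw hi h v,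
      fun h => ?_⟩⟩
    rw [← Aw_cc ρ hbru hw hi v]
    have hiw : ∀ j ∈ i :: w, j ∈ J := by
      intro j hj
      rcases List.mem_cons.1 hj with rfl | h1
      · exact hi
      · exact hw j h1
    exact (Aw_cons ρ hfac hbru hiw hi (pos_of_neg_cons R h) v).symm
  · intro w hw t ht v
    exact Aw_T ρ hbru hw ht v
  · intro i hi v hv
    rw [Ai_eq]
    exact Aw_fx ρ hfac hbru (hsing i hi) hv
  · intro i hi t ht v
    have h1 := Aw_T ρ hbru (hsing i hi) ht v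
    rw [nw_single] at h1
    rw [Ai_eq]
    exact h1
  · intro t ht v hv u hu
    have h1 : t⁻¹ * u * t ∈ R.U := by
      have := R.T_gp R.pos_sub (R.T.inv_mem ht) hu
      rwa [inv_inv] at this
    rw [Matrix.mulVec_mulVec, ← ro_mul ρ (U_le_PJ R J hu) (T_le_PJ R J ht)]
    have e : u * t = t * (t⁻¹ * u * t) := by group
    rw [e, ro_mul ρ (T_le_PJ R J ht) (U_le_PJ R J h1), ← Matrix.mulVec_mulVec, hv _ h1]

end Pool.Agent.PP.X1.H69
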